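import Pool.Agent.H71.IE.Tow

set_option autoImplicit false

/-!
# Joint ergodicity of maps acting distally is pointwise

If `T_1, …, T_m` (no relation between them is assumed) respect a tower of isometric extensions and
inverse limits over a pointwise jointly ergodic system, for example over a point, then weak joint
ergodicity implies pointwise joint ergodicity.
-/

namespace Pool.Agent.Results.MP_4d8f14_an.DistalTowers

open Filter Topology MeasureTheory
open scoped ENNReal

/-- The averages over `|n| ≤ N` of a sequence. -/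
noncomputable def avg (N : ℕ) (u : ℤ → ℂ) : ℂ :=
  ((2 * N + 1 : ℕ) : ℂ)⁻¹ * ∑ n ∈ Finset.Icc (-(N : ℤ)) (N : ℤ), u n

/-- A bounded measurable function. -/
def BddMeas {Ω : Type} [MeasurableSpace Ω] (f : Ω → ℂ) : Prop :=
  Measurable f ∧ ∃ C : ℝ, ∀ x, ‖f x‖ ≤ C

variable {m : ℕ}

/-- For all bounded measurable `f_1, …, f_m` the averages of `∏ f_j (T_j^n x)` converge to
`∏ ∫ f_j` for almost every `x`. -/
def PointwiseJointlyErgodic {X : Type} [MeasurableSpace X] (μ : Measure X)
    (T : Fin m → Equiv.Perm X) : Prop :=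
  ∀ f : Fin m → X → ℂ, (∀ j, BddMeas (f j)) → ∀ᵐ x ∂μ,
    Tendsto (fun N => avg N fun n => ∏ j, f j ((T j ^ n) x)) atTop (𝓝 (∏ j, ∫ x, f j x ∂μ))

/-- For all bounded measurable `f_1, …, f_m` the averages of `∏ f_j (T_j^n x)` converge weakly to
`∏ ∫ f_j`. This holds if they converge to `∏ ∫ f_j` in `L²`. -/
def WeaklyJointlyErgodic {X : Type} [MeasurableSpace X] (μ : Measure X)
    (T : Fin m → Equiv.Perm X) : Prop :=
  ∀ (h : X → ℂ) (f : Fin m → X → ℂ), BddMeas h → (∀ j, BddMeas (f j)) →
    Tendsto (fun N => ∫ x, h x * avg N (fun n => ∏ j, f j ((T j ^ n) x)) ∂μ) atTop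
      (𝓝 ((∫ x, h x ∂μ) * ∏ j, ∫ x, f j x ∂μ))

/-- The maps preserve the measure, in both directions. -/
def Invertible {X : Type} [MeasurableSpace X] (μ : Measure X) (T : Fin m → Equiv.Perm X) : Prop :=
  ∀ j, MeasurePreserving (T j) μ μ ∧ MeasurePreserving ((T j)⁻¹ : Equiv.Perm X) μ μ

/-- The powers of the maps `T_j` are equicontinuous on the fibre over `y`. -/
def EquicontinuousOver {Y Z : Type} [PseudoMetricSpace Z] (T : Fin m → Equiv.Perm (Y × Z))
    (y : Y) : Prop :=
  ∀ j, ∀ ε : ℝ, 0 < ε → ∃ δ : ℝ, 0 < δ ∧ ∀ (n : ℤ) (z z' : Z), dist z z' < δ →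
    dist ((T j ^ n) (y, z)).2 ((T j ^ n) (y, z')).2 < ε

/-- `T_1, …, T_m`, acting on `Y × Z`, are isometric extensions of `S_1, …, S_m`, acting on `Y`:
`T_j` acts on `Y` as `S_j`, is measurable in both directions, preserves the measure `ρ` of the
fibre `Z`, and has equicontinuous powers on almost all fibres. -/
structure IsIsometricExtension {Y Z : Type} [MeasurableSpace Y] (ν : Measure Y)
    [PseudoMetricSpace Z] [MeasurableSpace Z] (ρ : Measure Z) (S : Fin m → Equiv.Perm Y)
    (T : Fin m → Equiv.Perm (Y × Z)) : Prop where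
  base : ∀ j p, (T j p).1 = S j p.1
  meas : ∀ j, Measurable (T j) ∧ Measurable ((T j)⁻¹ : Equiv.Perm (Y × Z))
  fibre : ∀ j y, MeasurePreserving (fun z => (T j (y, z)).2) ρ ρ
  equi : ∀ᵐ y ∂ν, EquicontinuousOver T y

/-- The systems `(X, μ; T_1, …, T_m)` which are obtained from pointwise jointly ergodic systems (for
example from the system with one point) by forming isometric extensions with compact fibres and
inverse limits of sequences, any countable ordinal number of times. -/
inductive Tower (m : ℕ) : (X : Type) → (mX : MeasurableSpace X) → (μ : @Measure X mX) →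
    (Fin m → Equiv.Perm X) → Prop
  | start (X : Type) [mX : MeasurableSpace X] (μ : Measure X) [IsProbabilityMeasure μ]
      (T : Fin m → Equiv.Perm X) (hT : Invertible μ T) (hj : PointwiseJointlyErgodic μ T) :
      Tower m X mX μ T
  | extension (Y Z : Type) [mY : MeasurableSpace Y] (ν : Measure Y) [IsProbabilityMeasure ν]
      [MetricSpace Z] [CompactSpace Z] [MeasurableSpace Z] [BorelSpace Z] (ρ : Measure Z)
      [IsProbabilityMeasure ρ] [ρ.IsOpenPosMeasure]
      (S : Fin m → Equiv.Perm Y) (hS : Tower m Y mY ν S) (T : Fin m → Equiv.Perm (Y × Z))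
      (hT : IsIsometricExtension ν ρ S T) :
      Tower m (Y × Z) inferInstance (ν.prod ρ) T
  | limit (X : Type) [mX : MeasurableSpace X] (μ : Measure X) [IsProbabilityMeasure μ]
      (T : Fin m → Equiv.Perm X) (hT : Invertible μ T)
      (Y : ℕ → Type) [mY : ∀ i, MeasurableSpace (Y i)] (ν : ∀ i, Measure (Y i))
      (S : ∀ i, Fin m → Equiv.Perm (Y i)) (hS : ∀ i, Tower m (Y i) (mY i) (ν i) (S i))
      (π : ∀ i, X → Y i) (hπ : ∀ i, MeasurePreserving (π i) μ (ν i))
      (he : ∀ i j x, π i (T j x) = S i j (π i x))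
      (hmono : ∀ i, ∃ r : Y (i + 1) → Y i, Measurable r ∧ ∀ x, π i x = r (π (i + 1) x))
      (hdense : ∀ f : X → ℂ, BddMeas f → ∀ ε : ℝ, 0 < ε → ∃ (i : ℕ) (g : Y i → ℂ),
        BddMeas g ∧ ∫ x, ‖f x - g (π i x)‖ ∂μ ≤ ε) :
      Tower m X mX μ T

/-- **For maps acting distally, joint ergodicity is pointwise.** Let `(X, μ; T_1, …, T_m)` be
obtained from pointwise jointly ergodic systems, for example from the one point system, by isometric
extensions and inverse limits. No relation between the `T_j` is assumed.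

(1) If `T_1, …, T_m` are jointly ergodic in the mean, or only weakly, then for all
`f_1, …, f_m ∈ L^∞(μ)` the averages of `∏ f_j (T_j^n x)` over `|n| ≤ N` converge to `∏ ∫ f_j` for
almost every `x`.
(2) The averages converge almost everywhere, for all functions in `L^∞`, on every isometric
extension of `(X, μ; T_1, …, T_m)`, if only `T_1, …, T_m` are weakly jointly ergodic on `X`. -/
theorem result (m : ℕ) {X : Type} [mX : MeasurableSpace X] (μ : Measure X)
    [IsProbabilityMeasure μ] (T : Fin m → Equiv.Perm X) (hT : Tower m X mX μ T)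
    (hw : WeaklyJointlyErgodic μ T) :
    (∀ f : Fin m → X → ℂ, (∀ j, MemLp (f j) ∞ μ) → ∀ᵐ x ∂μ,
      Tendsto (fun N => avg N fun n => ∏ j, f j ((T j ^ n) x)) atTop
        (𝓝 (∏ j, ∫ x, f j x ∂μ))) ∧
    ∀ {Z : Type} [MetricSpace Z] [CompactSpace Z] [MeasurableSpace Z] [BorelSpace Z]
      (ρ : Measure Z) [IsProbabilityMeasure ρ] [ρ.IsOpenPosMeasure]
      (U : Fin m → Equiv.Perm (X × Z)), IsIsometricExtension μ ρ T U →
      ∀ f : Fin m → X × Z → ℂ, (∀ j, MemLp (f j) ∞ (μ.prod ρ)) →
      ∀ᵐ p ∂(μ.prod ρ), ∃ L : ℂ,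
        Tendsto (fun N => avg N fun n => ∏ j, f j ((U j ^ n) p)) atTop (𝓝 L) := by
  have key : Invertible μ T ∧ (WeaklyJointlyErgodic μ T → PointwiseJointlyErgodic μ T) := by
    clear hw
    induction hT with
    | start X μ T hT hj => exact ⟨hT, fun _ => hj⟩
    | extension Y Z ν ρ S hS T hT ih =>
      obtain ⟨h1, h2⟩ := ih
      obtain ⟨h3, h4, h5⟩ := Pool.Agent.H71.IE.iso_step (ν := ν) (ρ := ρ) (S := S) (T := T) h1
        hT.base hT.meas hT.fibre hT.equi
      exact ⟨h3, fun hw => h5 (h2 (h4 hw)) hw⟩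
    | limit X μ T hT Y ν S hS π hπ he hmono hdense ih =>
      have hp : ∀ i, IsProbabilityMeasure (ν i) := fun i => by
        rw [← (hπ i).map_eq]
        exact Measure.isProbabilityMeasure_map (hπ i).measurable.aemeasurable
      exact ⟨hT, fun hw => Pool.Agent.H71.IE.lim_step hT Y ν S (fun i => (ih i).1) π hπ he hmono
        hdense (fun i => (ih i).2) hw⟩
  obtain ⟨hi, hp⟩ := key
  have hpj := hp hw
  refine ⟨fun f hf => ?_, fun {Z} _ _ _ _ ρ _ _ U hU f hf => ?_⟩
  · choose F hFb hfF using fun j => Pool.Agent.H71.NU.BM_of_memLp (hf j)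
    have h1 : ∀ᵐ z ∂μ, ∀ (n : ℤ) j, f j ((T j ^ n) z) = F j ((T j ^ n) z) := by
      rw [ae_all_iff]
      intro n
      rw [ae_all_iff]
      intro j
      exact (Pool.Agent.H71.IE.zmeas (hi j).1 (hi j).2 n).quasiMeasurePreserving.ae (hfF j)
    filter_upwards [hpj F hFb, h1] with x hx hx'
    have e : ∏ j, ∫ x, f j x ∂μ = ∏ j, ∫ x, F j x ∂μ :=
      Finset.prod_congr rfl fun j _ => integral_congr_ae (hfF j)
    rw [e]
    refine hx.congr fun N => ?_
    congr 1
    funext n
    exact Finset.prod_congr rfl fun j _ => (hx' n j).symm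
  · exact Pool.Agent.H71.IE.main (κ := id) (fun k => (hi k).1) (fun k => (hi k).2) hpj hU.base
      (fun j => (hU.meas j).1) (fun j => (hU.meas j).2) hU.fibre hU.equi hf

end Pool.Agent.Results.MP_4d8f14_an.DistalTowers
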