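import Pool.Agent.H71.IE.Asm

set_option autoImplicit false

/-!
# Isometric extensions of jointly ergodic maps

Multiple averages of maps `T_1, …, T_m` of `Y × Z`, without any relation between them, which are
isometric (or equicontinuous) extensions of maps `S_1, …, S_K` of `Y` that are pointwise jointly
ergodic.
-/

namespace Pool.Agent.Results.MP_4d8f14_an.IsometricExtensions

open Filter Topology MeasureTheory
open scoped ENNReal

/-- The averages over `|n| ≤ N` of a sequence. -/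
noncomputable def avg (N : ℕ) (u : ℤ → ℂ) : ℂ :=
  ((2 * N + 1 : ℕ) : ℂ)⁻¹ * ∑ n ∈ Finset.Icc (-(N : ℤ)) (N : ℤ), u n

/-- A bounded measurable function. -/
def BddMeas {Ω : Type} [MeasurableSpace Ω] (f : Ω → ℂ) : Prop :=
  Measurable f ∧ ∃ C : ℝ, ∀ x, ‖f x‖ ≤ C

/-- `S_1, …, S_K` are pointwise jointly ergodic: for all bounded measurable `h_1, …, h_K` the
averages of `∏ h_k (S_k^n y)` converge to `∏ ∫ h_k` for almost every `y`. -/
def PointwiseJointlyErgodic {Y : Type} [MeasurableSpace Y] {K : ℕ} (ν : Measure Y)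
    (S : Fin K → Equiv.Perm Y) : Prop :=
  ∀ h : Fin K → Y → ℂ, (∀ k, BddMeas (h k)) → ∀ᵐ y ∂ν,
    Tendsto (fun N => avg N fun n => ∏ k, h k ((S k ^ n) y)) atTop (𝓝 (∏ k, ∫ y, h k y ∂ν))

/-- The powers of the maps `T_j` are equicontinuous on the fibre over `y`. -/
def EquicontinuousOver {Y Z : Type} [PseudoMetricSpace Z] {m : ℕ}
    (T : Fin m → Equiv.Perm (Y × Z)) (y : Y) : Prop :=
  ∀ j, ∀ ε : ℝ, 0 < ε → ∃ δ : ℝ, 0 < δ ∧ ∀ (n : ℤ) (z z' : Z), dist z z' < δ →
    dist ((T j ^ n) (y, z)).2 ((T j ^ n) (y, z')).2 < ε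

/-- `f` is uniformly continuous in the fibre direction, uniformly in `y`. -/
def UniformlyContinuousInFibre {Y Z : Type} [PseudoMetricSpace Z] (f : Y × Z → ℂ) : Prop :=
  ∀ ε : ℝ, 0 < ε → ∃ δ : ℝ, 0 < δ ∧ ∀ y z z', dist z z' < δ → ‖f (y, z) - f (y, z')‖ ≤ ε

/-- **Isometric extensions of jointly ergodic maps.** Let `(Y, ν)` be a probability space with
invertible measure preserving maps `S_1, …, S_K` that are pointwise jointly ergodic, let `Z` be a
compact metric space with a Borel probability `ρ` that charges all nonempty open sets, and let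
`T_1, …, T_m` be bijections of `Y × Z`, measurable in both directions, such that `T_j` acts on `Y`
as `S_κ(j)`, preserves `ρ` on the fibres, and has equicontinuous powers on almost every fibre (for
example, acts isometrically on the fibres). No relation between the `T_j` is assumed.

(1) For all `f_1, …, f_m ∈ L^∞(ν × ρ)` the averages of `∏ f_j (T_j^n (y, z))` over `|n| ≤ N`
converge for almost every `(y, z)`.
(2) If the `f_j` are bounded, measurable and uniformly continuous in the fibre direction, then for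
almost every `y` the averages of `∏ f_j (T_j^n (y, z_j))` converge for ALL `z_1, …, z_m ∈ Z`. -/
theorem result (m K : ℕ) {Y Z : Type} [MeasurableSpace Y] (ν : Measure Y) [IsProbabilityMeasure ν]
    [MetricSpace Z] [CompactSpace Z] [MeasurableSpace Z] [BorelSpace Z] (ρ : Measure Z)
    [IsProbabilityMeasure ρ] [ρ.IsOpenPosMeasure]
    (S : Fin K → Equiv.Perm Y)
    (hS : ∀ k, MeasurePreserving (S k) ν ν ∧ MeasurePreserving ((S k)⁻¹ : Equiv.Perm Y) ν ν)
    (hjoint : PointwiseJointlyErgodic ν S)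
    (κ : Fin m → Fin K) (T : Fin m → Equiv.Perm (Y × Z))
    (hT : ∀ j p, (T j p).1 = S (κ j) p.1)
    (hmeas : ∀ j, Measurable (T j) ∧ Measurable ((T j)⁻¹ : Equiv.Perm (Y × Z)))
    (hfibre : ∀ j y, MeasurePreserving (fun z => (T j (y, z)).2) ρ ρ)
    (hequi : ∀ᵐ y ∂ν, EquicontinuousOver T y) :
    (∀ f : Fin m → Y × Z → ℂ, (∀ j, MemLp (f j) ∞ (ν.prod ρ)) →
      ∀ᵐ p ∂(ν.prod ρ), ∃ L : ℂ,
        Tendsto (fun N => avg N fun n => ∏ j, f j ((T j ^ n) p)) atTop (𝓝 L)) ∧
    ∀ f : Fin m → Y × Z → ℂ, (∀ j, BddMeas (f j)) → (∀ j, UniformlyContinuousInFibre (f j)) →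
      ∀ᵐ y ∂ν, ∀ z : Fin m → Z, ∃ L : ℂ,
        Tendsto (fun N => avg N fun n => ∏ j, f j ((T j ^ n) (y, z j))) atTop (𝓝 L) :=
  ⟨fun _ hf => Pool.Agent.H71.IE.main (fun k => (hS k).1) (fun k => (hS k).2) hjoint hT
      (fun j => (hmeas j).1) (fun j => (hmeas j).2) hfibre hequi hf,
    fun _ hf hu => Pool.Agent.H71.IE.fib_all (fun k => (hS k).1) (fun k => (hS k).2) hjoint hT
      (fun j => (hmeas j).1) (fun j => (hmeas j).2) hfibre hequi hf hu⟩

end Pool.Agent.Results.MP_4d8f14_an.IsometricExtensions
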