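import Pool.Agent.H87.NC.Ext

/-! # Nilpotent polynomial ergodic averages: reduction to null functions and to words of degree one

The definitions are in `Pool/Agent/H87/NC/Def.lean`. The left side of the equivalence is the
question: the averages of `f_j (g_j(n) x)`, `g_j(n) = T_1^(P_1j(n)) ⋯ T_d^(P_dj(n))`, converge almost
everywhere for all invertible measure preserving maps which generate a nilpotent group, all integer
polynomials without constant term and all bounded functions. The right side speaks only of the words
`T_j^n T_0^(-n)`, and only of functions for which the averages tend to zero in `L^2`, for one of the
given functions and all the choices of the others. -/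

set_option autoImplicit false

namespace Pool.Agent.Results.MP_4d8f14_an.NullCase

open Pool.Agent.H87.NC

theorem result : (∀ m, Nilpotent Converges m) ↔ (∀ m, TwoTerm NullConverges m) :=
  nilpotent_iff

end Pool.Agent.Results.MP_4d8f14_an.NullCase
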