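import Pool.Agent.H71.NU.Fin

set_option autoImplicit false

/-!
# Polynomial averages on unipotent extensions of an arbitrary system

Multiple polynomial averages for nilpotent groups of maps `(y, x) ↦ (S y, α x · c y)` of `Y × X`,
where `Y` is an arbitrary probability space, `X` a compact abelian group and the automorphisms `α`
act unipotently, when the sequences of maps in question act on the base as `b_j σ ^ n`.
-/

namespace Pool.Agent.Results.MP_4d8f14_an.UnipotentExtensions

open Filter Topology MeasureTheory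
open scoped ENNReal Polynomial

/-- The sequence `n ↦ T_1 ^ (P_1 n) ⋯ T_d ^ (P_d n)` of bijections of `Z`. -/
def word {Z : Type} {d : ℕ} (T : Fin d → Equiv.Perm Z) (P : Fin d → ℤ[X]) (n : ℤ) :
    Equiv.Perm Z :=
  (List.ofFn fun i : Fin d => T i ^ (P i).eval n).prod

/-- The translation `(y, x) ↦ (y, x a)` of `Y × X`. -/
def fibreTranslation (Y : Type) {X : Type} [Group X] (a : X) : Equiv.Perm (Y × X) where
  toFun z := (z.1, z.2 * a)
  invFun z := (z.1, z.2 * a⁻¹)
  left_inv z := by simp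
  right_inv z := by simp

/-- The group generated by the maps `T_i` and the translations of the fibres. -/
def bigGroup {Y X : Type} [Group X] {d : ℕ} (T : Fin d → Equiv.Perm (Y × X)) :
    Subgroup (Equiv.Perm (Y × X)) :=
  Subgroup.closure (Set.range T ∪ Set.range (fibreTranslation Y (X := X)))

/-- `Tensors Y X`: the finite sums of functions `h(y) u(x)` with `h` bounded and measurable and `u`
continuous. -/
def Tensors (Y X : Type) [TopologicalSpace X] [MeasurableSpace Y] :
    Submodule ℂ (Y × X → ℂ) :=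
  Submodule.span ℂ {f | ∃ (h : Y → ℂ) (u : X → ℂ),
    (Measurable h ∧ ∃ C : ℝ, ∀ y, ‖h y‖ ≤ C) ∧ Continuous u ∧ f = fun z => h z.1 * u z.2}

/-- `f` is Riemann integrable in the fibre direction: up to `ε`, it is approximated within an error
`K` by a function `F`, where `K`, `F` are finite sums of functions `h(y) u(x)` as above and
`∫ K ≤ ε`. For trivial `Y` these are the Riemann integrable functions of `X`. -/
def FibrewiseRiemann {Y X : Type} [TopologicalSpace X] [MeasurableSpace X] [MeasurableSpace Y]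
    (μ : Measure X) (ν : Measure Y) (f : Y × X → ℂ) : Prop :=
  ∀ ε : ℝ, 0 < ε → ∃ (F : Y × X → ℂ) (K : Y × X → ℝ), F ∈ Tensors Y X ∧
    (fun z => (K z : ℂ)) ∈ Tensors Y X ∧ (∀ᵐ z ∂(ν.prod μ), ‖f z - F z‖ ≤ K z) ∧
    ∫ z, K z ∂(ν.prod μ) ≤ ε

/-- The averages of a single bounded function along the sequence of maps `g` converge almost
everywhere. -/
def SingleAveragesConverge {Z : Type} [MeasurableSpace Z] (μ : Measure Z)
    (g : ℤ → Equiv.Perm Z) : Prop :=
  ∀ F : Z → ℝ, Measurable F → (∃ C : ℝ, ∀ z, |F z| ≤ C) → ∀ᵐ z ∂μ, ∃ L : ℝ,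
    Tendsto (fun N : ℕ => ((2 * N + 1 : ℕ) : ℝ)⁻¹ * ∑ n ∈ Finset.Icc (-(N : ℤ)) (N : ℤ),
      F (g n z)) atTop (𝓝 L)

/-- **Unipotent extensions of arbitrary systems.** Let `Y` be an arbitrary probability space, `X` a
compact Hausdorff abelian group with Haar probability `μ`, and let
`T_i (y, x) = (S_i y, α_i x · c_i y)`, `1 ≤ i ≤ d`, be invertible measure preserving maps of
`Y × X` (with arbitrary automorphisms `α_i` of `X`) which generate, together with the translations
of the fibres, a nilpotent group `Γ`. Let `P_ij ∈ ℤ[n]` be arbitrary polynomials and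
`g_j(n) = T_1^(P_1j(n)) ⋯ T_d^(P_dj(n))`, and suppose that `g_j(n)` acts on the base as
`b_j σ^n`. Let `f_1, …, f_m ∈ L^∞(ν × μ)` be such that for each `j`

* `f_j` is Riemann integrable in the fibre direction, or
* `g_j(n) = u^n v` for all `n`, for some `u`, `v ∈ Γ` (and `f_j ∈ L^∞` is arbitrary), or
* the averages of single bounded functions along `g_j` converge a.e. (and `f_j` is arbitrary).

(1) `(1/(2N+1)) ∑_{|n| ≤ N} f_1 (g_1(n) z) ⋯ f_m (g_m(n) z)` converges for almost every `z`.
(2) If the `f_j` are finite sums of functions `h(y) u(x)`, with `h` bounded and measurable and `u`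
continuous, then for almost every `y` they converge for EVERY `x`. -/
theorem result (d m : ℕ) {X Y : Type} [CommGroup X] [TopologicalSpace X]
    [IsTopologicalGroup X] [CompactSpace X] [T2Space X] [MeasurableSpace X] [BorelSpace X]
    (μ : Measure X) [μ.IsHaarMeasure] [IsProbabilityMeasure μ]
    [MeasurableSpace Y] (ν : Measure Y) [IsProbabilityMeasure ν]
    (S : Fin d → Equiv.Perm Y) (α : Fin d → X ≃* X) (c : Fin d → Y → X)
    (T : Fin d → Equiv.Perm (Y × X))
    (hT : ∀ i y x, T i (y, x) = (S i y, α i x * c i y))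
    (hmp : ∀ i, MeasurePreserving (T i) (ν.prod μ) (ν.prod μ) ∧
      MeasurePreserving ((T i)⁻¹ : Equiv.Perm (Y × X)) (ν.prod μ) (ν.prod μ))
    (hG : Group.IsNilpotent (bigGroup T))
    (P : Fin m → Fin d → ℤ[X])
    (hσ : ∃ σ : Equiv.Perm Y, ∀ j, ∃ b : Equiv.Perm Y, ∀ n : ℤ, word S (P j) n = b * σ ^ n) :
    (∀ f : Fin m → Y × X → ℂ, (∀ j, MemLp (f j) ∞ (ν.prod μ)) →
      (∀ j, FibrewiseRiemann μ ν (f j) ∨
        (∃ u ∈ bigGroup T, ∃ v ∈ bigGroup T, ∀ n : ℤ, word T (P j) n = u ^ n * v) ∨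
        SingleAveragesConverge (ν.prod μ) (word T (P j))) →
      ∀ᵐ z ∂(ν.prod μ), ∃ L : ℂ, Tendsto (fun N : ℕ => ((2 * N + 1 : ℕ) : ℂ)⁻¹ *
        ∑ n ∈ Finset.Icc (-(N : ℤ)) (N : ℤ), ∏ j : Fin m, f j (word T (P j) n z)) atTop (𝓝 L)) ∧
    ∀ f : Fin m → Y × X → ℂ, (∀ j, f j ∈ Tensors Y X) →
      ∀ᵐ y ∂ν, ∀ x : X, ∃ L : ℂ, Tendsto (fun N : ℕ => ((2 * N + 1 : ℕ) : ℂ)⁻¹ *
        ∑ n ∈ Finset.Icc (-(N : ℤ)) (N : ℤ), ∏ j : Fin m, f j (word T (P j) n (y, x)))
          atTop (𝓝 L) := by
  obtain ⟨σ, hσ⟩ := hσ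
  choose b hb using hσ
  have e : (Pool.Agent.H71.NU.Gs T) = Set.range T ∪ Set.range (fibreTranslation Y (X := X)) := by
    unfold Pool.Agent.H71.NU.Gs
    congr 2
  have hG' : Group.IsNilpotent (Subgroup.closure (Pool.Agent.H71.NU.Gs T)) := by
    rw [e]
    exact hG
  refine ⟨fun f hf hs => ?_, fun f hf => ?_⟩
  · have h1 := Pool.Agent.H71.NU.main_thm (α := α) (c := c) (P := P) (σ := σ) (b := b) hT hmp hG' hb
      hf (fun j => by
        rcases hs j with h | h | h
        · exact Or.inl h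
        · right
          left
          rw [e]
          exact h
        · exact Or.inr (Or.inr h))
    exact h1
  · exact Pool.Agent.H71.NU.main_fib (μ := μ) (α := α) (c := c) (P := P) (σ := σ) (b := b) hT hmp
      hG' hb hf

end Pool.Agent.Results.MP_4d8f14_an.UnipotentExtensions
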